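import Mathlib

open Filter Topology Set

namespace Pool.Agent.KS6_57.TD

variable {α : ℝ}

noncomputable def g (α t : ℝ) : ℝ := Real.log (α + Real.exp t)

noncomputable def G (α t : ℝ) : ℝ := ∫ s in (0:ℝ)..t, g α s

/-- the equilibrium -/
noncomputable def xeq (α : ℝ) : ℝ := (1 + √(1 + 4 * α)) / 2

lemma xeq_pos (hα : 0 < α) : 0 < xeq α := by
  unfold xeq; positivity

lemma xeq_sq (hα : 0 < α) : xeq α ^ 2 = α + xeq α := by
  unfold xeq
  have h : √(1 + 4 * α) ^ 2 = 1 + 4 * α := Real.sq_sqrt (by positivity)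
  nlinarith [h]

lemma g_cont (hα : 0 < α) : Continuous (g α) := by
  unfold g
  refine Continuous.log (by fun_prop) (fun t => ?_)
  positivity

lemma g_strictMono (hα : 0 < α) : StrictMono (g α) := by
  intro a b hab
  have h := Real.exp_lt_exp.2 hab
  exact Real.log_lt_log (by positivity) (by linarith)

lemma g_lip (hα : 0 < α) {a b : ℝ} (hab : a ≤ b) : g α b - g α a ≤ b - a := by
  have h1 : 1 ≤ Real.exp (b - a) := Real.one_le_exp (by linarith)
  have h2 : Real.exp a * Real.exp (b - a) = Real.exp b := by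
    rw [← Real.exp_add]; congr 1; ring
  have h3 : g α b ≤ g α a + (b - a) := by
    have h4 : g α a + (b - a) = Real.log ((α + Real.exp a) * Real.exp (b - a)) := by
      rw [Real.log_mul (by positivity) (by positivity), Real.log_exp]
      rfl
    rw [h4]
    refine Real.log_le_log (by positivity) ?_
    nlinarith
  linarith

lemma G_deriv (hα : 0 < α) (t : ℝ) : HasDerivAt (G α) (g α t) t :=
  ((g_cont hα).integral_hasStrictDerivAt 0 t).hasDerivAt

lemma G_cont (hα : 0 < α) : Continuous (G α) :=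
  continuous_iff_continuousAt.2 fun t => (G_deriv hα t).continuousAt

/-- the increment of the Lyapunov function -/
noncomputable def D (α a b : ℝ) : ℝ := (b - a) * g α b - (G α b - G α a)

lemma D_pos (hα : 0 < α) {a b : ℝ} (hab : a ≠ b) : 0 < D α a b := by
  rcases lt_or_gt_of_ne hab with h | h
  · obtain ⟨c, hc, hc'⟩ := exists_hasDerivAt_eq_slope (G α) (g α) h
      (G_cont hα).continuousOn (fun x _ => G_deriv hα x)
    have h1 : G α b - G α a = g α c * (b - a) := by
      rw [hc']; field_simp [(sub_pos.2 h).ne']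
    have h2 := g_strictMono hα hc.2
    unfold D
    rw [h1]
    nlinarith [sub_pos.2 h]
  · obtain ⟨c, hc, hc'⟩ := exists_hasDerivAt_eq_slope (G α) (g α) h
      (G_cont hα).continuousOn (fun x _ => G_deriv hα x)
    have h1 : G α a - G α b = g α c * (a - b) := by
      rw [hc']; field_simp [(sub_pos.2 h).ne']
    have h2 := g_strictMono hα hc.1
    unfold D
    nlinarith [sub_pos.2 h]

lemma D_nonneg (hα : 0 < α) (a b : ℝ) : 0 ≤ D α a b := by
  by_cases h : a = b
  · subst h; simp [D]
  · exact (D_pos hα h).le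

lemma D_cont (hα : 0 < α) : Continuous (fun p : ℝ × ℝ => D α p.1 p.2) := by
  unfold D
  have h1 := g_cont hα
  have h2 := G_cont hα
  fun_prop

/-- the Lyapunov function -/
noncomputable def V (α a b c : ℝ) : ℝ := b * c + a * b - c * a - G α b

lemma V_step (a b c d : ℝ) (h : d + a = g α c) : V α b c d - V α a b c = D α b c := by
  unfold V D
  rw [← h]; ring

/-- **Bounded solutions converge.** -/
theorem conv (hα : 0 < α) (u : ℕ → ℝ) (hu : ∀ n, u (n + 3) + u n = g α (u (n + 2)))
    (R : ℝ) (hR : ∀ n, |u n| ≤ R) (e : ℝ) (he : 2 * e = g α e) : Tendsto u atTop (𝓝 e) := by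
  have hR0 : 0 ≤ R := (abs_nonneg _).trans (hR 0)
  have hmem : ∀ n, u n ∈ Icc (-R) R := fun n => abs_le.1 (hR n)
  -- bound on `G`
  obtain ⟨B, hB⟩ := (isCompact_Icc (a := -R) (b := R)).exists_bound_of_continuousOn
    (G_cont hα).continuousOn
  set W : ℕ → ℝ := fun n => V α (u n) (u (n + 1)) (u (n + 2)) with hW
  have hstep : ∀ n, W (n + 1) - W n = D α (u (n + 1)) (u (n + 2)) := by
    intro n
    exact V_step _ _ _ _ (hu n)
  have hmono : Monotone W := monotone_nat_of_le_succ fun n => by
    have h1 := hstep n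
    have h2 := D_nonneg hα (u (n + 1)) (u (n + 2))
    linarith
  have hbd : ∀ n, W n ≤ 3 * R ^ 2 + B := by
    intro n
    have hG := hB (u (n + 1)) (hmem _)
    rw [Real.norm_eq_abs] at hG
    have h1 : ∀ i j, |u i * u j| ≤ R ^ 2 := by
      intro i j
      rw [abs_mul, sq]
      exact mul_le_mul (hR i) (hR j) (abs_nonneg _) hR0
    have a1 := (abs_le.1 (h1 (n + 1) (n + 2))).2
    have a2 := (abs_le.1 (h1 n (n + 1))).2
    have a3 := (abs_le.1 (h1 (n + 2) n)).1
    have a4 := (abs_le.1 hG).1
    simp only [hW, V]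
    linarith
  have hlim : Tendsto W atTop (𝓝 (⨆ n, W n)) :=
    tendsto_atTop_ciSup hmono ⟨3 * R ^ 2 + B, by rintro _ ⟨n, rfl⟩; exact hbd n⟩
  have hD0 : Tendsto (fun n => D α (u (n + 1)) (u (n + 2))) atTop (𝓝 0) := by
    have h1 := ((tendsto_add_atTop_iff_nat 1).2 hlim).sub hlim
    rw [sub_self] at h1
    exact h1.congr fun n => hstep n
  have hdiff : Tendsto (fun n => u (n + 2) - u (n + 1)) atTop (𝓝 0) := by
    rw [Metric.tendsto_atTop]
    intro ε hε
    set K : Set (ℝ × ℝ) := (Icc (-R) R ×ˢ Icc (-R) R) ∩ {p | ε ≤ |p.2 - p.1|} with hK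
    have hKc : IsCompact K := by
      refine (isCompact_Icc.prod isCompact_Icc).inter_right ?_
      exact isClosed_le continuous_const (by fun_prop)
    by_cases hne : K.Nonempty
    · obtain ⟨p, hp, hmin⟩ := hKc.exists_isMinOn hne (D_cont hα).continuousOn
      have hpne : p.1 ≠ p.2 := by
        intro h
        have h2 := hp.2
        simp only [mem_setOf_eq, h, sub_self, abs_zero] at h2
        linarith
      have hdp := D_pos hα hpne
      rw [Metric.tendsto_atTop] at hD0
      obtain ⟨N, hN⟩ := hD0 _ hdp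
      refine ⟨N, fun n hn => ?_⟩
      by_contra hcon
      rw [Real.dist_0_eq_abs, not_lt] at hcon
      have hin : (u (n + 1), u (n + 2)) ∈ K := ⟨⟨hmem _, hmem _⟩, hcon⟩
      have h1 := hmin hin
      have h2 := hN n hn
      rw [Real.dist_0_eq_abs, abs_of_nonneg (D_nonneg hα _ _)] at h2
      simp only [mem_setOf_eq] at h1
      linarith
    · refine ⟨0, fun n _ => ?_⟩
      by_contra hcon
      rw [Real.dist_0_eq_abs, not_lt] at hcon
      exact hne ⟨(u (n + 1), u (n + 2)), ⟨hmem _, hmem _⟩, hcon⟩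
  -- the residual tends to zero
  have hres : Tendsto (fun n => 2 * u (n + 3) - g α (u (n + 3))) atTop (𝓝 0) := by
    have d1 := (tendsto_add_atTop_iff_nat 2).2 hdiff
    have d2 := (tendsto_add_atTop_iff_nat 1).2 hdiff
    have h1 := (d2.add hdiff).sub d1
    simp only [add_zero, sub_zero] at h1
    refine h1.congr fun n => ?_
    have h2 := hu (n + 1)
    simp only [Nat.add_assoc, Nat.reduceAdd] at h2 ⊢
    rw [← h2]; ring
  have hfin : Tendsto (fun n => u (n + 3)) atTop (𝓝 e) := by
    rw [tendsto_iff_dist_tendsto_zero]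
    refine squeeze_zero (fun _ => dist_nonneg) (fun n => ?_)
      (tendsto_norm_zero.comp hres)
    simp only [Function.comp, Real.norm_eq_abs, Real.dist_eq]
    set t := u (n + 3)
    rcases le_total t e with h | h
    · have h1 := g_lip hα h
      rw [abs_of_nonpos (by linarith), abs_of_nonpos (by linarith)]
      linarith
    · have h1 := g_lip hα h
      rw [abs_of_nonneg (by linarith), abs_of_nonneg (by linarith)]
      linarith
  exact (tendsto_add_atTop_iff_nat 3).1 hfin

/-! ### the recurrence -/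

/-- positive solutions -/
def Sol (α : ℝ) (x : ℕ → ℝ) : Prop :=
  (∀ n, 0 < x n) ∧ ∀ n, x (n + 3) = (α + x (n + 2)) / x n

lemma Sol.shift {x : ℕ → ℝ} (h : Sol α x) (N : ℕ) : Sol α (fun n => x (n + N)) := by
  refine ⟨fun n => h.1 _, fun n => ?_⟩
  have h2 := h.2 (n + N)
  have e1 : n + 3 + N = n + N + 3 := by ring
  have e2 : n + 2 + N = n + N + 2 := by ring
  simp only [e1, e2]
  exact h2

lemma Sol.mul {x : ℕ → ℝ} (h : Sol α x) (n : ℕ) : x n * x (n + 3) = α + x (n + 2) := by
  rw [h.2 n]
  have := (h.1 n).ne'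
  field_simp

lemma log_rec (hα : 0 < α) {x : ℕ → ℝ} (h : Sol α x) (n : ℕ) :
    Real.log (x (n + 3)) + Real.log (x n) = g α (Real.log (x (n + 2))) := by
  unfold g
  rw [Real.exp_log (h.1 _), ← h.mul n, Real.log_mul (h.1 _).ne' (h.1 _).ne']
  ring

lemma eq_log (hα : 0 < α) : 2 * Real.log (xeq α) = g α (Real.log (xeq α)) := by
  unfold g
  rw [Real.exp_log (xeq_pos hα), ← xeq_sq hα, Real.log_pow]
  norm_num

/-- a solution which is bounded above is bounded below -/
lemma Sol.log_bdd (hα : 0 < α) {x : ℕ → ℝ} (h : Sol α x) (hb : BddAbove (range x)) :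
    ∃ R, ∀ n, |Real.log (x n)| ≤ R := by
  obtain ⟨M, hM⟩ := hb
  have hM' : ∀ n, x n ≤ M := fun n => hM ⟨n, rfl⟩
  have hM0 : 0 < M := (h.1 0).trans_le (hM' 0)
  have hlow : ∀ n, α / M ≤ x (n + 3) := by
    intro n
    rw [h.2 n]
    have h1 := h.1 n
    have h2 := h.1 (n + 2)
    have h3 := hM' n
    exact div_le_div₀ (by linarith) (by linarith) h1 h3
  set R := |Real.log M| + |Real.log (α / M)| + |Real.log (x 0)| + |Real.log (x 1)| +
    |Real.log (x 2)| with hR
  refine ⟨R, fun n => ?_⟩
  have p1 := abs_nonneg (Real.log M)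
  have p2 := abs_nonneg (Real.log (α / M))
  have p3 := abs_nonneg (Real.log (x 0))
  have p4 := abs_nonneg (Real.log (x 1))
  have p5 := abs_nonneg (Real.log (x 2))
  match n with
  | 0 => linarith
  | 1 => linarith
  | 2 => linarith
  | n + 3 =>
    have h1 := Real.log_le_log (by positivity) (hlow n)
    have h2 := Real.log_le_log (h.1 (n + 3)) (hM' (n + 3))
    rw [abs_le]
    constructor
    · have := neg_abs_le (Real.log (α / M)); linarith
    · have := le_abs_self (Real.log M); linarith

theorem Sol.tendsto_log (hα : 0 < α) {x : ℕ → ℝ} (h : Sol α x) (hb : BddAbove (range x)) :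
    Tendsto (fun n => Real.log (x n)) atTop (𝓝 (Real.log (xeq α))) := by
  obtain ⟨R, hR⟩ := h.log_bdd hα hb
  exact conv hα _ (log_rec hα h) R hR _ (eq_log hα)

theorem Sol.tendsto (hα : 0 < α) {x : ℕ → ℝ} (h : Sol α x) (hb : BddAbove (range x)) :
    Tendsto x atTop (𝓝 (xeq α)) := by
  have h1 := (Real.continuous_exp.tendsto _).comp (h.tendsto_log hα hb)
  rw [Real.exp_log (xeq_pos hα)] at h1
  exact h1.congr fun n => Real.exp_log (h.1 n)

/-- a solution that is bounded away from zero is bounded above -/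
theorem Sol.bdd_of_low (hα : 0 < α) {x : ℕ → ℝ} (h : Sol α x) {c : ℝ} (hc : 0 < c)
    (hx : ∀ n, c ≤ x n) : BddAbove (range x) := by
  by_contra hcon
  set K := 1 + ((c ^ 2 + c + 1) * α + α + 1) / c ^ 3 + x 0 + x 1 + x 2 + x 3 + x 4 with hK
  have p0 := h.1 0
  have p1 := h.1 1
  have p2 := h.1 2
  have p3 := h.1 3
  have p4 := h.1 4
  have hq : 0 ≤ ((c ^ 2 + c + 1) * α + α + 1) / c ^ 3 := by positivity
  have hK1 : 1 ≤ K := by linarith
  have hKc : (c ^ 2 + c + 1) * α + α + 1 ≤ c ^ 3 * K := by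
    have h1 : ((c ^ 2 + c + 1) * α + α + 1) / c ^ 3 ≤ K := by linarith
    rw [div_le_iff₀ (by positivity)] at h1
    linarith
  have hex : ∃ n, K < x n := by
    by_contra h2
    push Not at h2
    exact hcon ⟨K, by rintro _ ⟨n, rfl⟩; exact h2 n⟩
  classical
  set n := Nat.find hex with hn
  have hn1 : K < x n := Nat.find_spec hex
  have hn2 : ∀ m < n, x m ≤ K := fun m hm => not_lt.1 (Nat.find_min hex hm)
  have hn5 : 5 ≤ n := by
    by_contra h5
    push Not at h5
    interval_cases n <;> linarith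
  obtain ⟨k, hk⟩ := Nat.exists_eq_add_of_le hn5
  have e5 : n = k + 5 := by omega
  rw [e5] at hn1
  have b4 := hn2 (k + 4) (by omega)
  have m2 := h.mul (k + 2)
  have m1 := h.mul (k + 1)
  have m0 := h.mul k
  simp only [Nat.add_assoc, Nat.reduceAdd] at m2 m1 m0
  have q2 := h.1 (k + 2)
  -- `x (k + 2) < 1 + α`
  have s1 : K * x (k + 2) < α + K := by nlinarith
  have s2 : x (k + 2) < 1 + α := by
    by_contra h6
    push Not at h6
    nlinarith
  have s3 : c * K ≤ α + x (k + 4) := by
    have := hx (k + 2)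
    nlinarith
  have s4 : c * x (k + 4) ≤ α + x (k + 3) := by
    have := hx (k + 1)
    have := h.1 (k + 4)
    nlinarith
  have s5 : c * x (k + 3) ≤ α + x (k + 2) := by
    have := hx k
    have := h.1 (k + 3)
    nlinarith
  have s6 : c ^ 2 * K ≤ c * α + c * x (k + 4) := by nlinarith
  have s7 : c ^ 2 * K ≤ c * α + α + x (k + 3) := by linarith
  have s8 : c ^ 3 * K ≤ c ^ 2 * α + c * α + c * x (k + 3) := by nlinarith
  nlinarith

theorem Sol.alt (hα : 0 < α) {x : ℕ → ℝ} (h : Sol α x) :
    Tendsto x atTop (𝓝 (xeq α)) ∨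
      ((∀ C : ℝ, ∃ᶠ n in atTop, C < x n) ∧ ∀ ε : ℝ, 0 < ε → ∃ᶠ n in atTop, x n < ε) := by
  by_cases hb : BddAbove (range x)
  · exact Or.inl (h.tendsto hα hb)
  · right
    have key : ∀ N, ¬ BddAbove (range fun n => x (n + N)) := by
      intro N ⟨M, hM⟩
      apply hb
      refine (Filter.isBoundedUnder_of_eventually_le (f := atTop) (a := M) ?_).bddAbove_range
      filter_upwards [eventually_ge_atTop N] with n hn
      have := hM ⟨n - N, rfl⟩
      simpa [Nat.sub_add_cancel hn] using this
    constructor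
    · intro C
      rw [Filter.frequently_atTop]
      intro N
      by_contra hcon
      push Not at hcon
      exact key N ⟨C, by rintro _ ⟨n, rfl⟩; exact hcon _ (by omega)⟩
    · intro ε hε
      rw [Filter.frequently_atTop]
      intro N
      by_contra hcon
      push Not at hcon
      exact key N ((h.shift N).bdd_of_low hα hε fun n => hcon _ (by omega))

theorem Sol.periodic (hα : 0 < α) {x : ℕ → ℝ} (h : Sol α x) {k : ℕ} (hk : 0 < k)
    (hp : ∀ n, x (n + k) = x n) (n : ℕ) : x n = xeq α := by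
  have hb : BddAbove (range x) := by
    have hfin : (range x) ⊆ x '' (Set.Iio k) := by
      rintro _ ⟨n, rfl⟩
      refine ⟨n % k, Nat.mod_lt _ hk, ?_⟩
      exact Function.Periodic.map_mod_nat (f := x) (a := k) hp n
    exact (((Set.finite_Iio k).image x).subset hfin).bddAbove
  have h1 := h.tendsto hα hb
  have h2 : Tendsto (fun j : ℕ => n + j * k) atTop atTop := by
    refine tendsto_atTop_mono (fun j => ?_) tendsto_id
    have := Nat.le_mul_of_pos_right j hk
    simp only [id]; omega
  have h3 := h1.comp h2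
  have h4 : ∀ j : ℕ, x (n + j * k) = x n := by
    intro j
    induction j with
    | zero => simp
    | succ j ih => rw [Nat.succ_mul, ← Nat.add_assoc, hp, ih]
  refine tendsto_nhds_unique ?_ h3
  refine tendsto_const_nhds.congr fun j => ?_
  exact (h4 j).symm

end Pool.Agent.KS6_57.TD
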