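import Mathlib
import Pool.Agent.KS6_57.TD.Seq

open Filter Topology Set MeasureTheory

namespace Pool.Agent.KS6_57.TD

variable {α : ℝ}

/-- the map in logarithmic coordinates -/
noncomputable def T (α : ℝ) (p : ℝ × ℝ × ℝ) : ℝ × ℝ × ℝ := (p.2.1, p.2.2, g α p.2.2 - p.1)

lemma T_cont (hα : 0 < α) : Continuous (T α) := by
  unfold T
  have h1 := g_cont hα
  fun_prop

lemma T_mp (hα : 0 < α) :
    MeasurePreserving (T α) (volume : Measure (ℝ × ℝ × ℝ)) (volume : Measure (ℝ × ℝ × ℝ)) := by
  have h1 : MeasurePreserving (Prod.swap : ℝ × ℝ × ℝ → (ℝ × ℝ) × ℝ)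
      ((volume : Measure ℝ).prod (volume : Measure (ℝ × ℝ)))
      ((volume : Measure (ℝ × ℝ)).prod (volume : Measure ℝ)) := Measure.measurePreserving_swap
  have h2 : MeasurePreserving (fun p : (ℝ × ℝ) × ℝ => (id p.1, g α p.1.2 - p.2))
      ((volume : Measure (ℝ × ℝ)).prod (volume : Measure ℝ))
      ((volume : Measure (ℝ × ℝ)).prod (volume : Measure ℝ)) := by
    refine MeasurePreserving.skew_product (g := fun (a : ℝ × ℝ) (u : ℝ) => g α a.2 - u)
      (MeasurePreserving.id _) ?_ ?_
    · have h3 := g_cont hα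
      refine Continuous.measurable ?_
      simp only [Function.uncurry_def]
      fun_prop
    · exact ae_of_all _ fun a => (Measure.measurePreserving_sub_left volume (g α a.2)).map_eq
  have h3 : MeasurePreserving (MeasurableEquiv.prodAssoc : (ℝ × ℝ) × ℝ ≃ᵐ ℝ × ℝ × ℝ)
      ((volume : Measure (ℝ × ℝ)).prod (volume : Measure ℝ))
      ((volume : Measure ℝ).prod ((volume : Measure ℝ).prod (volume : Measure ℝ))) :=
    measurePreserving_prodAssoc volume volume volume
  exact h3.comp (h2.comp h1)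

lemma iter_T (hα : 0 < α) {x : ℕ → ℝ} (h : Sol α x) (n : ℕ) :
    (T α)^[n] (Real.log (x 0), Real.log (x 1), Real.log (x 2)) =
      (Real.log (x n), Real.log (x (n + 1)), Real.log (x (n + 2))) := by
  induction n with
  | zero => rfl
  | succ n ih =>
    rw [Function.iterate_succ_apply', ih]
    unfold T
    have h1 := log_rec hα h n
    simp only [Nat.add_assoc, Nat.reduceAdd]
    rw [← h1]
    simp

/-- the set of the points that are attracted by `(e, e, e)` is a null set -/
theorem null_basin (hα : 0 < α) (e : ℝ) :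
    volume {p : ℝ × ℝ × ℝ | Tendsto (fun n => (T α)^[n] p) atTop (𝓝 (e, e, e))} = 0 := by
  have hle : ∀ ε : ℝ, 0 < ε →
      volume {p : ℝ × ℝ × ℝ | Tendsto (fun n => (T α)^[n] p) atTop (𝓝 (e, e, e))} ≤
        ENNReal.ofReal (2 * ε) * (ENNReal.ofReal (2 * ε) * ENNReal.ofReal (2 * ε)) := by
    intro ε hε
    set Q : Set (ℝ × ℝ × ℝ) := Icc (e - ε) (e + ε) ×ˢ (Icc (e - ε) (e + ε) ×ˢ Icc (e - ε) (e + ε))
      with hQ
    have hQm : MeasurableSet Q := measurableSet_Icc.prod (measurableSet_Icc.prod measurableSet_Icc)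
    have hQn : Q ∈ 𝓝 ((e, e, e) : ℝ × ℝ × ℝ) := by
      have h1 : Icc (e - ε) (e + ε) ∈ 𝓝 e := Icc_mem_nhds (by linarith) (by linarith)
      exact prod_mem_nhds h1 (prod_mem_nhds h1 h1)
    set C : ℕ → Set (ℝ × ℝ × ℝ) := fun N => {p | ∀ n, N ≤ n → (T α)^[n] p ∈ Q} with hC
    have hCm : ∀ N, MeasurableSet (C N) := by
      intro N
      have : C N = ⋂ n, ⋂ (_ : N ≤ n), (T α)^[n] ⁻¹' Q := by
        ext p; simp [hC]
      rw [this]
      refine MeasurableSet.iInter fun n => MeasurableSet.iInter fun _ => ?_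
      exact ((T_cont hα).iterate n).measurable hQm
    have hCpre : ∀ N, (T α) ⁻¹' (C N) = C (N + 1) := by
      intro N
      ext p
      simp only [hC, mem_preimage, mem_setOf_eq]
      constructor
      · intro h n hn
        obtain ⟨m, rfl⟩ := Nat.exists_eq_add_of_le hn
        have h1 := h (N + m) (by omega)
        rw [← Function.iterate_succ_apply] at h1
        have e1 : N + 1 + m = (N + m).succ := by omega
        rwa [e1]
      · intro h n hn
        rw [← Function.iterate_succ_apply]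
        exact h _ (by omega)
    have hCv : ∀ N, volume (C N) ≤ volume Q := by
      intro N
      induction N with
      | zero =>
        refine measure_mono fun p hp => ?_
        simpa using hp 0 le_rfl
      | succ N ih =>
        rw [← hCpre N, (T_mp hα).measure_preimage (hCm N).nullMeasurableSet]
        exact ih
    have hCmono : Monotone C := by
      intro N M hNM p hp n hn
      exact hp n (hNM.trans hn)
    have hsub : {p : ℝ × ℝ × ℝ | Tendsto (fun n => (T α)^[n] p) atTop (𝓝 (e, e, e))} ⊆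
        ⋃ N, C N := by
      intro p hp
      have h1 := (hp : Tendsto _ _ _) hQn
      rw [mem_map, mem_atTop_sets] at h1
      obtain ⟨N, hN⟩ := h1
      exact mem_iUnion.2 ⟨N, fun n hn => hN n hn⟩
    refine (measure_mono hsub).trans ?_
    rw [hCmono.measure_iUnion]
    refine iSup_le fun N => (hCv N).trans (le_of_eq ?_)
    rw [hQ]
    change (Measure.prod volume (Measure.prod volume volume)) _ = _
    rw [Measure.prod_prod, Measure.prod_prod, Real.volume_Icc]
    ring_nf
  have hlim : Tendsto (fun ε : ℝ => ENNReal.ofReal (2 * ε) * (ENNReal.ofReal (2 * ε) *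
      ENNReal.ofReal (2 * ε))) (𝓝[>] 0) (𝓝 0) := by
    have h0 : Tendsto (fun ε : ℝ => ENNReal.ofReal (2 * ε * (2 * ε * (2 * ε)))) (𝓝[>] 0)
        (𝓝 (ENNReal.ofReal (2 * 0 * (2 * 0 * (2 * 0))))) := by
      refine (ENNReal.continuous_ofReal.tendsto _).comp ?_
      refine Tendsto.mono_left ?_ nhdsWithin_le_nhds
      exact Continuous.tendsto (by fun_prop) 0
    simp only [mul_zero, ENNReal.ofReal_zero] at h0
    refine h0.congr' ?_
    filter_upwards [self_mem_nhdsWithin] with ε hε
    have hε' : 0 < ε := hε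
    have hp : 0 ≤ 2 * ε := by linarith
    rw [ENNReal.ofReal_mul hp, ENNReal.ofReal_mul hp]
  refine le_antisymm ?_ bot_le
  refine ge_of_tendsto hlim ?_
  filter_upwards [self_mem_nhdsWithin] with ε hε
  exact hle ε hε

/-- from logarithmic to ordinary coordinates -/
noncomputable def E3 (p : ℝ × ℝ × ℝ) : ℝ × ℝ × ℝ :=
  (Real.exp p.1, Real.exp p.2.1, Real.exp p.2.2)

lemma E3_cont : Continuous E3 := by
  unfold E3; fun_prop

lemma E3_diff : Differentiable ℝ E3 := by
  unfold E3; fun_prop

instance instHaar2 : (volume : Measure (ℝ × ℝ)).IsAddHaarMeasure :=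
  Measure.prod.instIsAddHaarMeasure _ _

instance instHaar3 : (volume : Measure (ℝ × ℝ × ℝ)).IsAddHaarMeasure :=
  Measure.prod.instIsAddHaarMeasure _ _

lemma E3_null {s : Set (ℝ × ℝ × ℝ)} (hs : volume s = 0) : volume (E3 '' s) = 0 :=
  addHaar_image_eq_zero_of_differentiableOn_of_addHaar_eq_zero volume
    (E3_diff.differentiableOn) hs

/-- the initial values with a bounded solution -/
def Bad (α : ℝ) : Set (ℝ × ℝ × ℝ) :=
  {p | ∃ x : ℕ → ℝ, Sol α x ∧ (x 0, x 1, x 2) = p ∧ BddAbove (range x)}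

/-- the points with a bounded orbit, in logarithmic coordinates -/
def F (α : ℝ) (k : ℕ) : Set (ℝ × ℝ × ℝ) :=
  {p | ∀ n, (T α)^[n] p ∈ Metric.closedBall (0 : ℝ × ℝ × ℝ) k}

lemma F_compact (hα : 0 < α) (k : ℕ) : IsCompact (F α k) := by
  have hcl : IsClosed (F α k) := by
    have : F α k = ⋂ n, (T α)^[n] ⁻¹' Metric.closedBall (0 : ℝ × ℝ × ℝ) k := by
      ext p; simp [F]
    rw [this]
    exact isClosed_iInter fun n => Metric.isClosed_closedBall.preimage ((T_cont hα).iterate n)
  exact (isCompact_closedBall (0 : ℝ × ℝ × ℝ) (k : ℝ)).of_isClosed_subset hcl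
    (fun p hp => by simpa using hp 0)

lemma bad_sub (hα : 0 < α) : Bad α ⊆ ⋃ k : ℕ, E3 '' (F α k) := by
  rintro p ⟨x, hx, rfl, hb⟩
  obtain ⟨R, hR⟩ := hx.log_bdd hα hb
  obtain ⟨k, hk⟩ := exists_nat_ge R
  refine mem_iUnion.2 ⟨k, (Real.log (x 0), Real.log (x 1), Real.log (x 2)), ?_, ?_⟩
  · intro n
    rw [iter_T hα hx n, mem_closedBall_zero_iff, Prod.norm_def, Prod.norm_def]
    simp only [Real.norm_eq_abs]
    exact max_le ((hR _).trans hk) (max_le ((hR _).trans hk) ((hR _).trans hk))
  · simp only [E3, Real.exp_log (hx.1 _)]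

/-- orbits in `F` -/
lemma F_conv (hα : 0 < α) (k : ℕ) {p : ℝ × ℝ × ℝ} (hp : p ∈ F α k) :
    Tendsto (fun n => (T α)^[n] p) atTop
      (𝓝 (Real.log (xeq α), Real.log (xeq α), Real.log (xeq α))) := by
  set u : ℕ → ℝ := fun n => ((T α)^[n] p).1 with hu
  have e1 : ∀ n, ((T α)^[n] p).2.1 = u (n + 1) := by
    intro n
    simp only [hu, Function.iterate_succ_apply', T]
  have e2 : ∀ n, ((T α)^[n] p).2.2 = u (n + 2) := by
    intro n
    rw [← e1 (n + 1), Function.iterate_succ_apply']
    simp only [T]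
  have e3 : ∀ n, u (n + 3) + u n = g α (u (n + 2)) := by
    intro n
    rw [← e2 (n + 1), Function.iterate_succ_apply']
    simp only [T]
    rw [e2 n]
    simp [hu]
  have hR : ∀ n, |u n| ≤ k := by
    intro n
    have h1 := hp n
    rw [mem_closedBall_zero_iff] at h1
    exact (norm_fst_le _).trans h1
  have hc := conv hα u e3 k hR _ (eq_log hα)
  have h1 := hc.prodMk_nhds (((tendsto_add_atTop_iff_nat 1).2 hc).prodMk_nhds
    ((tendsto_add_atTop_iff_nat 2).2 hc))
  refine h1.congr fun n => ?_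
  rw [← e1 n, ← e2 n]

lemma F_null (hα : 0 < α) (k : ℕ) : volume (F α k) = 0 :=
  measure_mono_null (fun _ hp => F_conv hα k hp) (null_basin hα _)

theorem bad_null (hα : 0 < α) : volume (Bad α) = 0 :=
  measure_mono_null (bad_sub hα) (measure_iUnion_null fun k => E3_null (F_null hα k))

theorem bad_meagre (hα : 0 < α) : IsMeagre (Bad α) := by
  refine IsMeagre.mono (bad_sub hα) ?_
  refine isMeagre_iUnion fun k => ?_
  have hcl : IsClosed (E3 '' (F α k)) := ((F_compact hα k).image E3_cont).isClosed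
  have hint : interior (E3 '' (F α k)) = ∅ := by
    have h1 : volume (interior (E3 '' (F α k))) = 0 :=
      measure_mono_null interior_subset (E3_null (F_null hα k))
    exact (isOpen_interior.measure_eq_zero_iff volume).1 h1
  have hnd : IsNowhereDense (E3 '' (F α k)) := by
    rw [hcl.isNowhereDense_iff]
    exact hint
  exact hnd.isMeagre

end Pool.Agent.KS6_57.TD
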